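import Mathlib
import Pool.Agent.W254.PA.Transfer

/-!
# Spaces of logarithms in an algebraically closed field

`Cc` is an algebraically closed field of characteristic zero, `QC Cc` the field of its algebraic
numbers, and `HypC Lt` says that the space `Lt` contains `1` and satisfies the hyperplane case of the
linear subgroup theorem.
-/

set_option autoImplicit false

namespace Pool.Agent.Y787

open Module

/-- the algebraic numbers of `Cc` -/
noncomputable abbrev QC (Cc : Type) [Field Cc] [CharZero Cc] : IntermediateField ℚ Cc :=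
  algebraicClosure ℚ Cc

theorem mem_QC {Cc : Type} [Field Cc] [CharZero Cc] {z : Cc} : z ∈ QC Cc ↔ IsAlgebraic ℚ z :=
  mem_algebraicClosure_iff

/-- `Lt` contains `1` and has the hyperplane property -/
class HypC {Cc : Type} [Field Cc] [CharZero Cc] (Lt : Submodule (QC Cc) Cc) : Prop where
  one : (1 : Cc) ∈ Lt
  hyp : Pool.Agent.W254.PA.Hyp Lt

variable {Cc : Type} [Field Cc] [CharZero Cc] {Lt : Submodule (QC Cc) Cc} [HypC Lt]

/-- the hyperplane theorem -/
theorem hyperplane (d l : ℕ) (x : Fin d → Cc) (a : Fin d → Fin l → Cc)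
    (hx : LinearIndependent (QC Cc) x)
    (ha : ∀ i j, a i j ∈ Lt) (hxa : ∀ j, ∑ i, x i * a i j = 0)
    (hcol : LinearIndependent (QC Cc) (fun j i => a i j)) : l ≤ d * (d - 1) :=
  HypC.hyp d l x a hx ha hxa hcol

/-- hyperplane theorem with arbitrary finite index type for the columns -/
theorem hyperplane' {κ : Type*} [Fintype κ] (d : ℕ) (x : Fin d → Cc) (a : Fin d → κ → Cc)
    (hx : LinearIndependent (QC Cc) x) (ha : ∀ i j, a i j ∈ Lt) (hxa : ∀ j, ∑ i, x i * a i j = 0)
    (hcol : LinearIndependent (QC Cc) (fun j i => a i j)) : Fintype.card κ ≤ d * (d - 1) := by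
  have e := Fintype.equivFin κ
  refine hyperplane d (Fintype.card κ) x (fun i j => a i (e.symm j)) hx (fun i j => ha _ _)
    (fun j => hxa _) ?_
  exact hcol.comp e.symm e.symm.injective

theorem Lt_one : (1 : Cc) ∈ Lt := HypC.one

omit [HypC Lt] in
/-- the inhomogeneous form of linear independence -/
theorem baker' {N : ℕ} (l : Fin N → Cc)
    (hli : LinearIndependent (QC Cc) (Fin.cons 1 l : Fin (N + 1) → Cc)) (β₀ : Cc)
    (hβ₀ : IsAlgebraic ℚ β₀) (β : Fin N → Cc) (hβ : ∀ j, IsAlgebraic ℚ (β j))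
    (h : β₀ + ∑ j, β j * l j = 0) : β₀ = 0 ∧ ∀ j, β j = 0 := by
  rw [Fintype.linearIndependent_iff] at hli
  have h1 := hli (Fin.cons ⟨β₀, mem_QC.mpr hβ₀⟩ fun j => ⟨β j, mem_QC.mpr (hβ j)⟩) (by
    rw [Fin.sum_univ_succ]
    simp only [Fin.cons_zero, Fin.cons_succ]
    rw [← h]
    congr 1
    rw [Algebra.smul_def, mul_one]
    rfl)
  refine ⟨?_, fun j => ?_⟩
  · have := h1 0
    rw [Fin.cons_zero] at this
    exact congrArg Subtype.val this
  · have := h1 j.succ
    rw [Fin.cons_succ] at this
    exact congrArg Subtype.val this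

end Pool.Agent.Y787
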