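import Pool.Agent.Y787.HS.Strat
import Pool.Agent.W254.HP.Prod
import Pool.Agent.H297R2.InBakerThm

/-!
# Relations of bounded degree between complex logarithms
-/

set_option autoImplicit false

namespace Pool.Agent.Y787

open Module
open Pool.Agent.H301R2.SSE (QB mem_QB Lt Lt_log)
open Pool.Agent.Y787.HS

theorem uncountable_complex : Uncountable ℂ :=
  ⟨fun h => not_countable_complex (Set.to_countable _)⟩

instance hypC_complex : HypC (Cc := ℂ) Lt where
  one := Pool.Agent.H301R2.SSE.Lt_one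
  hyp := fun d l x a hx ha hxa hcol => Pool.Agent.W254.HP.hyperplane d l x a hx ha hxa hcol

theorem stratC_dim {n m s D : ℕ} (hs : s < m) (x : Fin n → ℂ)
    (W : Submodule (QC ℂ) ℂ) [FiniteDimensional (QC ℂ) W] (hW : W ≤ Lt)
    (φ : Fin (m * (m - 1) + (m - 1 - s) * finrank (QC ℂ) W +
      (D + (n + m)).choose (n + m)) → ((Fin m → W) →ₗ[(QC ℂ)] (QC ℂ))) :
    ∃ P : MvPolynomial (Fin (m * (m - 1) + (m - 1 - s) * finrank (QC ℂ) W +
      (D + (n + m)).choose (n + m))) (QC ℂ), P ≠ 0 ∧ ∀ y : Fin m → W,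
      Strat D s x (fun i => (y i : ℂ)) →
        MvPolynomial.eval (fun k => φ k y) P = 0 :=
  have := uncountable_complex
  strat_dim (Lt := Lt) W hW hs x rfl φ

/-- Baker's theorem with the number `1` -/
theorem li_consC {N : ℕ} (l : Fin N → ℂ) (halg : ∀ j, IsAlgebraic ℚ (Complex.exp (l j)))
    (hli : LinearIndependent ℚ l) :
    LinearIndependent (QC ℂ) (Fin.cons 1 l : Fin (N + 1) → ℂ) := by
  rw [Fintype.linearIndependent_iff]
  intro g hg
  rw [Fin.sum_univ_succ] at hg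
  simp only [Fin.cons_zero, Fin.cons_succ] at hg
  have h1 : (g 0 : ℂ) + ∑ i : Fin N, (g i.succ : ℂ) * l i = 0 := by
    rw [← hg, Algebra.smul_def, mul_one]
    congr 1
  obtain ⟨h2, h3⟩ := Pool.Agent.H297R2.baker_inhom l halg hli (g 0) (mem_QC.1 (g 0).2)
    (fun i => (g i.succ : ℂ)) (fun i => mem_QC.1 (g i.succ).2) h1
  intro i
  refine Fin.cases ?_ (fun i => ?_) i
  · exact_mod_cast h2
  · exact_mod_cast h3 i

theorem li_of_consC {N : ℕ} (l : Fin N → ℂ)
    (h2 : LinearIndependent (QC ℂ) (Fin.cons 1 l : Fin (N + 1) → ℂ)) :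
    LinearIndependent (QC ℂ) l := by
  have h3 := h2.comp Fin.succ (Fin.succ_injective N)
  have h4 : (Fin.cons 1 l : Fin (N + 1) → ℂ) ∘ Fin.succ = l := by
    funext i
    rw [Function.comp_apply, Fin.cons_succ]
  rwa [h4] at h3

theorem stratC_count {n m s D N : ℕ} (hs : s < m) (x : Fin n → ℂ) (l : Fin N → ℂ)
    (halg : ∀ j, IsAlgebraic ℚ (Complex.exp (l j))) (hli : LinearIndependent ℚ l) :
    ∃ κ : ℕ, ∀ H : ℕ, 1 ≤ H → Set.ncard {A : Fin m → Fin N → ℤ | (∀ i j, |A i j| ≤ H) ∧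
      Strat D s x (fun i => ∑ j, (A i j : ℂ) * l j)} ≤
      κ * H ^ (m * (m - 1) + (m - 1 - s) * N + (D + (n + m)).choose (n + m) - 1) := by
  have := uncountable_complex
  have hpos : 0 < (D + (n + m)).choose (n + m) := Nat.choose_pos (Nat.le_add_left _ _)
  exact strat_count (Lt := Lt) l (li_of_consC l (li_consC l halg hli))
    (fun j => Lt_log (halg j)) hs x (by omega)

end Pool.Agent.Y787
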