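import Pool.Agent.Y787.Base
import Pool.Agent.W254.PA.LogP
import Pool.Agent.W245.PB.BakerThmP

/-!
# The Iwasawa logarithm
-/

set_option autoImplicit false

namespace Pool.Agent.Y787

open Module Cardinal
open Pool.Agent.W245.PB (IsIwasawaLog brumer isAlgebraic_zpow)
open Pool.Agent.W254.PA (LtE logs hyp_padic)

variable {p : ℕ} [hp : Fact p.Prime] {L : PadicAlgCl p → PadicAlgCl p}

theorem hypC_padic (hL : IsIwasawaLog p L) : HypC (Cc := PadicAlgCl p) (LtE (logs L)) where
  one := Submodule.subset_span (Or.inl rfl)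
  hyp := hyp_padic hL

theorem log_mem {z : PadicAlgCl p} (hz : ∃ α : PadicAlgCl p, α ≠ 0 ∧ IsAlgebraic ℚ α ∧ z = L α) :
    z ∈ (LtE (logs L) : Submodule (QC (PadicAlgCl p)) (PadicAlgCl p)) :=
  Submodule.subset_span (Or.inr hz)

/-- Brumer's theorem with the number `1` -/
theorem li_consP (hL : IsIwasawaLog p L) {N : ℕ} (l : Fin N → PadicAlgCl p)
    (hl : ∀ j, ∃ α : PadicAlgCl p, α ≠ 0 ∧ IsAlgebraic ℚ α ∧ l j = L α)
    (hli : LinearIndependent ℚ l) :
    LinearIndependent (QC (PadicAlgCl p)) (Fin.cons 1 l : Fin (N + 1) → PadicAlgCl p) := by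
  choose α hα0 halg hα using hl
  have hveq : l = fun i => L (α i) := funext hα
  rw [Fintype.linearIndependent_iff]
  intro g hg
  rw [Fin.sum_univ_succ] at hg
  simp only [Fin.cons_zero, Fin.cons_succ] at hg
  have h1 : (g 0 : PadicAlgCl p) + ∑ i : Fin N, (g i.succ : PadicAlgCl p) * L (α i) = 0 := by
    rw [← hg, Algebra.smul_def, mul_one]
    congr 1
    refine Finset.sum_congr rfl fun i _ => ?_
    rw [Algebra.smul_def, hα i]
    rfl
  obtain ⟨h2, h3⟩ := brumer hL α hα0 halg (by rwa [← hveq]) (g 0 : PadicAlgCl p) (mem_QC.1 (g 0).2)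
    (fun i => (g i.succ : PadicAlgCl p)) (fun i => mem_QC.1 (g i.succ).2) h1
  intro i
  refine Fin.cases ?_ (fun i => ?_) i
  · exact_mod_cast h2
  · exact_mod_cast h3 i

/-- integer combinations of logarithms are logarithms -/
theorem log_comb (hL : IsIwasawaLog p L) {N : ℕ} (l : Fin N → PadicAlgCl p)
    (hl : ∀ j, ∃ α : PadicAlgCl p, α ≠ 0 ∧ IsAlgebraic ℚ α ∧ l j = L α) (a : Fin N → ℤ) :
    ∃ α : PadicAlgCl p, α ≠ 0 ∧ IsAlgebraic ℚ α ∧
      ∑ j, (a j : PadicAlgCl p) * l j = L α := by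
  choose α hα0 halg hα using hl
  have key : ∀ s : Finset (Fin N), ∃ β : PadicAlgCl p, β ≠ 0 ∧ IsAlgebraic ℚ β ∧
      ∑ j ∈ s, (a j : PadicAlgCl p) * l j = L β := by
    classical
    intro s
    induction s using Finset.induction_on with
    | empty =>
      refine ⟨1, one_ne_zero, isAlgebraic_one, ?_⟩
      have h := hL.mul 1 1 one_ne_zero one_ne_zero
      rw [mul_one] at h
      have h0 : L 1 = 0 := by
        have h' : L 1 + 0 = L 1 + L 1 := by rw [add_zero]; exact h
        exact (add_left_cancel h').symm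
      rw [Finset.sum_empty, h0]
    | insert i s his ih =>
      obtain ⟨β, h1, h2, h3⟩ := ih
      refine ⟨α i ^ (a i) * β, mul_ne_zero (zpow_ne_zero _ (hα0 i)) h1,
        (isAlgebraic_zpow (halg i) _).mul h2, ?_⟩
      rw [Finset.sum_insert his, h3, hL.mul _ _ (zpow_ne_zero _ (hα0 i)) h1, hL.zpow (hα0 i), hα i]
  exact key Finset.univ

instance uncountable_padicAlgCl : Uncountable (PadicAlgCl p) := by
  have h1 : 𝔠 ≤ #ℚ_[p] := continuum_le_cardinal_of_nontriviallyNormedField ℚ_[p]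
  have h2 : #ℚ_[p] ≤ #(PadicAlgCl p) :=
    Cardinal.mk_le_of_injective (algebraMap ℚ_[p] (PadicAlgCl p)).injective
  rw [← Cardinal.aleph0_lt_mk_iff]
  exact Cardinal.aleph0_lt_continuum.trans_le (h1.trans h2)

end Pool.Agent.Y787
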