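import Pool.Agent.Y787.HS.Strat
import Pool.Agent.Y787.PInst

/-!
# Relations of bounded degree between `p`-adic logarithms
-/

set_option autoImplicit false

namespace Pool.Agent.Y787

open Module
open Pool.Agent.W245.PB (IsIwasawaLog brumer isAlgebraic_zpow)
open Pool.Agent.W254.PA (LtE logs hyp_padic)
open Pool.Agent.Y787.HS

variable {p : ℕ} [hp : Fact p.Prime] {L : PadicAlgCl p → PadicAlgCl p}

theorem li_of_cons {N : ℕ} (l : Fin N → PadicAlgCl p)
    (h2 : LinearIndependent (QC (PadicAlgCl p)) (Fin.cons 1 l : Fin (N + 1) → PadicAlgCl p)) :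
    LinearIndependent (QC (PadicAlgCl p)) l := by
  have h3 := h2.comp Fin.succ (Fin.succ_injective N)
  have h4 : (Fin.cons 1 l : Fin (N + 1) → PadicAlgCl p) ∘ Fin.succ = l := by
    funext i
    rw [Function.comp_apply, Fin.cons_succ]
  rwa [h4] at h3

theorem stratP_dim (hL : IsIwasawaLog p L) {n m s D : ℕ} (hs : s < m) (x : Fin n → PadicAlgCl p)
    (W : Submodule (QC (PadicAlgCl p)) (PadicAlgCl p)) [FiniteDimensional (QC (PadicAlgCl p)) W]
    (hW : W ≤ LtE (logs L))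
    (φ : Fin (m * (m - 1) + (m - 1 - s) * finrank (QC (PadicAlgCl p)) W +
      (D + (n + m)).choose (n + m)) → ((Fin m → W) →ₗ[(QC (PadicAlgCl p))] (QC (PadicAlgCl p)))) :
    ∃ P : MvPolynomial (Fin (m * (m - 1) + (m - 1 - s) * finrank (QC (PadicAlgCl p)) W +
      (D + (n + m)).choose (n + m))) (QC (PadicAlgCl p)), P ≠ 0 ∧ ∀ y : Fin m → W,
      Strat D s x (fun i => (y i : PadicAlgCl p)) →
        MvPolynomial.eval (fun k => φ k y) P = 0 := by
  have := hypC_padic hL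
  exact strat_dim (Lt := LtE (logs L)) W hW hs x rfl φ

theorem stratP_count (hL : IsIwasawaLog p L) {n m s D N : ℕ} (hs : s < m)
    (x : Fin n → PadicAlgCl p) (l : Fin N → PadicAlgCl p)
    (hl : ∀ j, ∃ α : PadicAlgCl p, α ≠ 0 ∧ IsAlgebraic ℚ α ∧ l j = L α)
    (hli : LinearIndependent ℚ l) :
    ∃ κ : ℕ, ∀ H : ℕ, 1 ≤ H → Set.ncard {A : Fin m → Fin N → ℤ | (∀ i j, |A i j| ≤ H) ∧
      Strat D s x (fun i => ∑ j, (A i j : PadicAlgCl p) * l j)} ≤
      κ * H ^ (m * (m - 1) + (m - 1 - s) * N + (D + (n + m)).choose (n + m) - 1) := by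
  have := hypC_padic hL
  have hpos : 0 < (D + (n + m)).choose (n + m) := Nat.choose_pos (Nat.le_add_left _ _)
  exact strat_count (Lt := LtE (logs L)) l (li_of_cons l (li_consP hL l hl hli))
    (fun j => log_mem (hl j)) hs x (by omega)

theorem indep_count (hL : IsIwasawaLog p L) {m D N : ℕ} (hm : 1 < m) (l : Fin N → PadicAlgCl p)
    (hl : ∀ j, ∃ α : PadicAlgCl p, α ≠ 0 ∧ IsAlgebraic ℚ α ∧ l j = L α)
    (hli : LinearIndependent ℚ l) :
    ∃ κ : ℕ, ∀ H : ℕ, 1 ≤ H → Set.ncard {A : Fin m → Fin N → ℤ | (∀ i j, |A i j| ≤ H) ∧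
      LinearIndependent ℚ (fun i => ∑ j, (A i j : PadicAlgCl p) * l j) ∧
      RlK (QC (PadicAlgCl p)) D (fun i => ∑ j, (A i j : PadicAlgCl p) * l j)} ≤
      κ * H ^ (m * (m - 1) + (m - 2) * N + (D + m).choose m - 1) := by
  have := hypC_padic hL
  have hpos : 0 < (D + m).choose m := Nat.choose_pos (Nat.le_add_left _ _)
  obtain ⟨κ, hκ⟩ := pure_count (Lt := LtE (logs L)) l (li_of_cons l (li_consP hL l hl hli))
    (fun j => log_mem (hl j)) m D
  refine ⟨κ, fun H hH => le_trans (Set.ncard_le_ncard ?_ ?_) (hκ H hH)⟩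
  · rintro A ⟨hA1, hA2, hA3⟩
    exact ⟨hA1, li_consP hL _ (fun i => log_comb hL l hl (A i)) hA2, hA3⟩
  · exact (box_finite m N H).subset fun A hA => hA.1

end Pool.Agent.Y787
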