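import Pool.Agent.Y787.PStrat
import Pool.Agent.Y787.HS.VW
import Pool.Agent.Y787.HS.Qg3
import Pool.Agent.Y787.GL.U6

/-!
# Quadratic relations, points on varieties and degrees for `p`-adic logarithms
-/

set_option autoImplicit false

namespace Pool.Agent.Y787

open Module
open Pool.Agent.W245.PB (IsIwasawaLog brumer isAlgebraic_zpow)
open Pool.Agent.W254.PA (LtE logs hyp_padic)
open Pool.Agent.Y787.HS

variable {p : ℕ} [hp : Fact p.Prime] {L : PadicAlgCl p → PadicAlgCl p}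

theorem famP_dim (hL : IsIwasawaLog p L)
    (W : Submodule (QC (PadicAlgCl p)) (PadicAlgCl p)) [FiniteDimensional (QC (PadicAlgCl p)) W]
    (hW : W ≤ LtE (logs L)) {m r k ρ : ℕ} (f : Fin r → MvPolynomial (Fin m ⊕ Fin k) (PadicAlgCl p))
    (φ : Fin (m * (m - 1) + ρ * finrank (QC (PadicAlgCl p)) W + k + 1) →
      ((Fin m → W) →ₗ[(QC (PadicAlgCl p))] (QC (PadicAlgCl p)))) :
    ∃ P : MvPolynomial (Fin (m * (m - 1) + ρ * finrank (QC (PadicAlgCl p)) W + k + 1))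
        (QC (PadicAlgCl p)), P ≠ 0 ∧
      ∀ (y : Fin m → W) (c : Fin k → (QC (PadicAlgCl p))),
        (∀ j, MvPolynomial.eval (Sum.elim (fun i => (y i : PadicAlgCl p))
          (fun l => (c l : PadicAlgCl p))) (f j) = 0) →
        finrank (QC (PadicAlgCl p)) (RelP (Sum.elim (fun i => (y i : PadicAlgCl p))
          (fun l => (c l : PadicAlgCl p))) f) ≤ ρ →
        MvPolynomial.eval (fun k => φ k y) P = 0 := by
  have := hypC_padic hL
  exact fam_dim (Lt := LtE (logs L)) W hW f φ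

theorem famP_count (hL : IsIwasawaLog p L) {N : ℕ} (l : Fin N → PadicAlgCl p)
    (hl : ∀ j, ∃ α : PadicAlgCl p, α ≠ 0 ∧ IsAlgebraic ℚ α ∧ l j = L α)
    (hli : LinearIndependent ℚ l) {m r k ρ : ℕ}
    (f : Fin r → MvPolynomial (Fin m ⊕ Fin k) (PadicAlgCl p)) :
    ∃ κ : ℕ, ∀ H : ℕ, 1 ≤ H → Set.ncard {A : Fin m → Fin N → ℤ | (∀ i j, |A i j| ≤ H) ∧
      ∃ c : Fin k → (QC (PadicAlgCl p)),
      (∀ j, MvPolynomial.eval (Sum.elim (fun i => ∑ j, (A i j : PadicAlgCl p) * l j)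
        (fun k => (c k : PadicAlgCl p))) (f j) = 0) ∧
      finrank (QC (PadicAlgCl p)) (RelP (Sum.elim (fun i => ∑ j, (A i j : PadicAlgCl p) * l j)
        (fun k => (c k : PadicAlgCl p))) f) ≤ ρ} ≤
      κ * H ^ (m * (m - 1) + ρ * N + k) := by
  have := hypC_padic hL
  exact fam_count (Lt := LtE (logs L)) l (li_of_cons l (li_consP hL l hl hli))
    (fun j => log_mem (hl j)) f

theorem quadP_dim (hL : IsIwasawaLog p L)
    (W : Submodule (QC (PadicAlgCl p)) (PadicAlgCl p)) [FiniteDimensional (QC (PadicAlgCl p)) W]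
    (hW : W ≤ LtE (logs L)) {m r : ℕ} (S : Matrix (Fin m) (Fin m) (QC (PadicAlgCl p)))
    (hS : S.IsSymm) (hr : 2 * m ≤ 2 * r + S.rank + 4)
    (φ : Fin (r * finrank (QC (PadicAlgCl p)) W + m * (m - 1) + m * (m - 3) + 1) →
      ((Fin m → W) →ₗ[(QC (PadicAlgCl p))] (QC (PadicAlgCl p)))) :
    ∃ P : MvPolynomial (Fin (r * finrank (QC (PadicAlgCl p)) W + m * (m - 1) + m * (m - 3) + 1))
        (QC (PadicAlgCl p)), P ≠ 0 ∧
      ∀ y : Fin m → W,
        ∑ i, ∑ j, (S i j : PadicAlgCl p) * (y i : PadicAlgCl p) * (y j : PadicAlgCl p) = 0 →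
        ¬ InIso (QC (PadicAlgCl p)) S (fun i => (y i : PadicAlgCl p)) →
        MvPolynomial.eval (fun k => φ k y) P = 0 := by
  have := hypC_padic hL
  exact quad_dim (Lt := LtE (logs L)) W hW S hS hr φ

theorem quadP_count (hL : IsIwasawaLog p L) {m r N : ℕ}
    (S : Matrix (Fin m) (Fin m) (QC (PadicAlgCl p))) (hS : S.IsSymm)
    (hr : 2 * m ≤ 2 * r + S.rank + 4) (l : Fin N → PadicAlgCl p)
    (hl : ∀ j, ∃ α : PadicAlgCl p, α ≠ 0 ∧ IsAlgebraic ℚ α ∧ l j = L α)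
    (hli : LinearIndependent ℚ l) :
    ∃ κ : ℕ, ∀ H : ℕ, 1 ≤ H →
      Set.ncard {A : Fin m → Fin N → ℤ | (∀ i k, |A i k| ≤ H) ∧
        ∑ i, ∑ j, (S i j : PadicAlgCl p) * (∑ k, (A i k : PadicAlgCl p) * l k) *
          (∑ k, (A j k : PadicAlgCl p) * l k) = 0 ∧
        ¬ InIso ℚ S (fun i => ∑ k, (A i k : PadicAlgCl p) * l k)} ≤
      κ * H ^ (r * N + m * (m - 1) + m * (m - 3)) := by
  have := hypC_padic hL
  exact quad_count (Lt := LtE (logs L)) S hS hr l (fun j => log_mem (hl j)) (li_consP hL l hl hli)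

theorem everyP (hL : IsIwasawaLog p L) {N : ℕ} (l : Fin N → PadicAlgCl p)
    (hl : ∀ j, ∃ α : PadicAlgCl p, α ≠ 0 ∧ IsAlgebraic ℚ α ∧ l j = L α)
    (hli : LinearIndependent ℚ l) (t : PadicAlgCl p) :
    ∃ Δ : MvPolynomial (Fin N) (QC (PadicAlgCl p)), Δ ≠ 0 ∧
      ∀ b : Fin N → (QC (PadicAlgCl p)), MvPolynomial.eval b Δ ≠ 0 →
        ∀ y ∈ Submodule.span (QC (PadicAlgCl p)) ({1, t} ∪ Set.range l),
          y ∉ Submodule.span (QC (PadicAlgCl p)) {1, ∑ j, (b j : PadicAlgCl p) * l j} →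
            ∀ q : Fin ((N + 1) ^ 2 / 4) → Polynomial (QC (PadicAlgCl p)),
              ∑ i, Polynomial.aeval (∑ j, (b j : PadicAlgCl p) * l j) (q i) * y ^ (i : ℕ) = 0 →
                q = 0 := by
  have := hypC_padic hL
  obtain ⟨Δ, h1, h2⟩ := Pool.Agent.Y787.GL.every_other_span (Lt := LtE (logs L)) l
    (fun j => log_mem (hl j)) (li_consP hL l hl hli) t
  refine ⟨Δ, h1, fun b hb y hy hyx q hq => ?_⟩
  exact Pool.Agent.Y787.GL.indep_of_degLe y (Pool.Agent.Y787.GL.cmb l b) _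
    (h2 b hb y hy hyx) q hq

theorem degreesP (hL : IsIwasawaLog p L)
    (F : IntermediateField (QC (PadicAlgCl p)) (PadicAlgCl p)) (N : ℕ) (x : Fin N → F)
    (hx : ∀ i, (x i : PadicAlgCl p) ∈ LtE (logs L))
    (hli : LinearIndependent (QC (PadicAlgCl p)) (Fin.cons 1 x : Fin (N + 1) → F))
    (hfin : ∀ i, FiniteDimensional
      (IntermediateField.adjoin (QC (PadicAlgCl p)) {x i}) F) :
    (N + 1) ^ 2 / 4 ≤
      ∑ i, Module.finrank (IntermediateField.adjoin (QC (PadicAlgCl p)) {x i}) F := by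
  have := hypC_padic hL
  exact Pool.Agent.Y787.GL.degrees_of_forms (Lt := LtE (logs L)) F N x hx hli hfin

end Pool.Agent.Y787
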