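import Pool.Agent.Y787.PInst
import Pool.Agent.Y787.FE.Fin

/-!
# The `p`-adic four exponentials conjecture: dimension of the family of counterexamples
-/

set_option autoImplicit false

namespace Pool.Agent.Y787

open Module
open Pool.Agent.W245.PB (IsIwasawaLog)
open Pool.Agent.W254.PA (LtE logs hyp_padic)
open Pool.Agent.Y787.FE

variable {p : ℕ} [hp : Fact p.Prime] {L : PadicAlgCl p → PadicAlgCl p}

theorem matP_dim (hL : IsIwasawaLog p L)
    (W : Submodule (QC (PadicAlgCl p)) (PadicAlgCl p)) [FiniteDimensional (QC (PadicAlgCl p)) W]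
    (hW : W ≤ LtE (logs L))
    (φ : Fin 13 → (Matrix (Fin 2) (Fin 2) W →ₗ[QC (PadicAlgCl p)] QC (PadicAlgCl p))) :
    ∃ P : MvPolynomial (Fin 13) (QC (PadicAlgCl p)), P ≠ 0 ∧ ∀ M : Matrix (Fin 2) (Fin 2) W,
      Ctr (Cc := PadicAlgCl p) (M 0 0) (M 0 1) (M 1 0) (M 1 1) →
        MvPolynomial.eval (fun i => φ i M) P = 0 := by
  have := hypC_padic hL
  exact mat_final (Lt := LtE (logs L)) W hW φ

theorem entP_dim (hL : IsIwasawaLog p L)
    (W : Submodule (QC (PadicAlgCl p)) (PadicAlgCl p)) [FiniteDimensional (QC (PadicAlgCl p)) W]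
    (hW : W ≤ LtE (logs L))
    (φ : Fin 9 → (W →ₗ[QC (PadicAlgCl p)] QC (PadicAlgCl p))) :
    ∃ P : MvPolynomial (Fin 9) (QC (PadicAlgCl p)), P ≠ 0 ∧ ∀ M : Matrix (Fin 2) (Fin 2) W,
      Ctr (Cc := PadicAlgCl p) (M 0 0) (M 0 1) (M 1 0) (M 1 1) → ∀ i j,
        MvPolynomial.eval (fun k => φ k (M i j)) P = 0 := by
  have := hypC_padic hL
  exact ent_final (Lt := LtE (logs L)) W hW φ

theorem genericP (hL : IsIwasawaLog p L)
    (W : Submodule (QC (PadicAlgCl p)) (PadicAlgCl p)) [FiniteDimensional (QC (PadicAlgCl p)) W]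
    (hW : W ≤ LtE (logs L)) (l : Fin 9 → W) (hl : LinearIndependent (QC (PadicAlgCl p)) l) :
    ∃ Δ : MvPolynomial (Fin 9) (QC (PadicAlgCl p)), Δ ≠ 0 ∧
      ∀ b : Fin 9 → QC (PadicAlgCl p), MvPolynomial.eval b Δ ≠ 0 →
        ∀ M : Matrix (Fin 2) (Fin 2) W, Ctr (Cc := PadicAlgCl p) (M 0 0) (M 0 1) (M 1 0) (M 1 1) →
          ∀ i j, M i j ≠ ∑ k, b k • l k := by
  classical
  have hker : LinearMap.ker (Fintype.linearCombination (QC (PadicAlgCl p)) l) = ⊥ := by
    rw [LinearMap.ker_eq_bot']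
    intro b hb
    rw [Fintype.linearCombination_apply] at hb
    funext i
    exact Fintype.linearIndependent_iff.mp hl b hb i
  obtain ⟨G, hG⟩ := LinearMap.exists_leftInverse_of_injective _ hker
  obtain ⟨P, h1, h2⟩ := entP_dim hL W hW (fun i => (LinearMap.proj i) ∘ₗ G)
  refine ⟨P, h1, fun b hb M hM i j hij => ?_⟩
  apply hb
  have h3 := h2 M hM i j
  have h5 : ∀ k, ((LinearMap.proj k) ∘ₗ G) (M i j) = b k := by
    intro k
    rw [hij, ← Fintype.linearCombination_apply]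
    exact congrFun (LinearMap.congr_fun hG b) k
  simp only [h5] at h3
  exact h3

end Pool.Agent.Y787
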